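import Pool.Agent.Lib.MP_9ff0e7_co.Q.Final

/-!
Every two-coloured set of n points in general position in the Euclidean plane spans at least
c n^2 monochromatic empty triangles, with explicit constants.
-/

set_option autoImplicit false
open scoped Classical

namespace Pool.Agent.Results.MP_9ff0e7_co.Quadratic

/-- coordinates. -/
noncomputable def e : EuclideanSpace ℝ (Fin 2) ≃ₗ[ℝ] ℝ × ℝ :=
  (WithLp.linearEquiv 2 ℝ (Fin 2 → ℝ)).trans (LinearEquiv.finTwoArrow ℝ ℝ)

/-- Let `X` be a set of `n ≥ 10^60` points of the Euclidean plane, no three of them collinear,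
and `χ` a 2-colouring of `X`. Then at least `n^2 / 10^36` of the 3-element subsets `T` of `X`
are monochromatic and empty (no point of `X \ T` lies in the convex hull of `T`). -/
theorem result (X : Finset (EuclideanSpace ℝ (Fin 2))) (hn : 10 ^ 60 ≤ X.card)
    (hX : ∀ a ∈ X, ∀ b ∈ X, ∀ c ∈ X, a ≠ b → a ≠ c → b ≠ c →
      ¬ Collinear ℝ ({a, b, c} : Set (EuclideanSpace ℝ (Fin 2))))
    (χ : {x // x ∈ X} → Fin 2) :
    (X.card : ℝ) ^ 2 / 10 ^ 36 ≤
      ((X.powerset.filter (fun T : Finset (EuclideanSpace ℝ (Fin 2)) => T.card = 3 ∧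
        (∀ x ∈ X, x ∉ T → x ∉ convexHull ℝ (↑T : Set (EuclideanSpace ℝ (Fin 2)))) ∧
        ∃ k : Fin 2, ∀ x (hx : x ∈ X), x ∈ T → χ ⟨x, hx⟩ = k)).card : ℝ) := by
  set X' : Finset (ℝ × ℝ) := X.image e with hX'
  have hinj : Function.Injective e := e.injective
  have hcard : X'.card = X.card := Finset.card_image_of_injective _ hinj
  have hmem : ∀ y, y ∈ X' ↔ e.symm y ∈ X := by
    intro y
    rw [hX', Finset.mem_image]
    constructor
    · rintro ⟨a, ha, rfl⟩; simpa using ha
    · intro h; exact ⟨_, h, by simp⟩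
  have hcol : ∀ T : Finset (ℝ × ℝ), T ⊆ X' → T.card = 3 →
      ¬ Collinear ℝ ((↑T : Set (ℝ × ℝ))) := by
    intro T hT h3 hc
    obtain ⟨a, b, c, hab, hac, hbc, rfl⟩ := Finset.card_eq_three.1 h3
    have ha := (hmem a).1 (hT (by simp))
    have hb := (hmem b).1 (hT (by simp))
    have hcc := (hmem c).1 (hT (by simp))
    refine hX _ ha _ hb _ hcc (fun h => hab (e.symm.injective h))
      (fun h => hac (e.symm.injective h)) (fun h => hbc (e.symm.injective h)) ?_
    rw [collinear_iff_of_mem (p₀ := a) (by simp)] at hc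
    obtain ⟨v, hv⟩ := hc
    rw [collinear_iff_of_mem (p₀ := e.symm a) (by simp)]
    refine ⟨e.symm v, ?_⟩
    have key : ∀ p ∈ (↑({a, b, c} : Finset (ℝ × ℝ)) : Set (ℝ × ℝ)),
        ∃ r : ℝ, e.symm p = r • e.symm v +ᵥ e.symm a := by
      intro p hp
      obtain ⟨r, hr⟩ := hv p hp
      refine ⟨r, ?_⟩
      rw [hr, vadd_eq_add, vadd_eq_add, map_add, map_smul]
    intro p hp
    simp only [Set.mem_insert_iff, Set.mem_singleton_iff] at hp
    rcases hp with rfl | rfl | rfl
    · exact key a (by simp)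
    · exact key b (by simp)
    · exact key c (by simp)
  set f : ℝ × ℝ → Bool := fun y => if h : e.symm y ∈ X then decide (χ ⟨e.symm y, h⟩ = 1)
    else false with hf
  have h := Pool.Agent.Lib.MP_9ff0e7_co.quad_final X' (by rw [hcard]; exact hn) hcol f
  rw [hcard] at h
  have h1 : 1 / 10 ^ 36 * ((X.card : ℝ) ^ 2) = (X.card : ℝ) ^ 2 / 10 ^ 36 := by ring
  rw [h1] at h
  refine h.trans ?_
  have h2 : ((X'.powersetCard 3).filter (fun T : Finset (ℝ × ℝ) =>
              (∃ b : Bool, ∀ x ∈ T, f x = b) ∧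
              Disjoint (convexHull ℝ ((↑T : Set (ℝ × ℝ))))
                ((↑(X' \ T) : Set (ℝ × ℝ))))).card ≤
      (X.powerset.filter (fun T : Finset (EuclideanSpace ℝ (Fin 2)) => T.card = 3 ∧
        (∀ x ∈ X, x ∉ T → x ∉ convexHull ℝ (↑T : Set (EuclideanSpace ℝ (Fin 2)))) ∧
        ∃ k : Fin 2, ∀ x (hx : x ∈ X), x ∈ T → χ ⟨x, hx⟩ = k)).card := by
    apply Finset.card_le_card_of_injOn
      (fun T : Finset (ℝ × ℝ) => (T.image e.symm : Finset (EuclideanSpace ℝ (Fin 2))))
    · intro T hT
      obtain ⟨hT1, ⟨b, hb⟩, hT2⟩ := Finset.mem_filter.1 (Finset.mem_coe.1 hT)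
      obtain ⟨hT3, hT4⟩ := Finset.mem_powersetCard.1 hT1
      rw [Finset.mem_coe, Finset.mem_filter, Finset.mem_powerset]
      refine ⟨?_, ?_, ?_, ?_⟩
      · intro y hy
        obtain ⟨z, hz, rfl⟩ := Finset.mem_image.1 hy
        exact (hmem z).1 (hT3 hz)
      · rw [Finset.card_image_of_injective _ e.symm.injective]; exact hT4
      · intro x hx hxT hxc
        rw [Set.disjoint_left] at hT2
        have h3 : e x ∈ convexHull ℝ ((↑T : Set (ℝ × ℝ))) := by
          have h4 : e x ∈ e.toLinearMap ''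
              convexHull ℝ (↑(T.image e.symm) : Set (EuclideanSpace ℝ (Fin 2))) :=
            ⟨x, hxc, rfl⟩
          rw [LinearMap.image_convexHull] at h4
          have h5 : e.toLinearMap '' (↑(T.image e.symm) : Set (EuclideanSpace ℝ (Fin 2))) =
              (↑T : Set (ℝ × ℝ)) := by
            ext y
            simp only [Finset.coe_image, Set.mem_image, Finset.mem_coe]
            constructor
            · rintro ⟨a, ⟨z, hz, rfl⟩, rfl⟩
              simpa using hz
            · intro hy
              exact ⟨e.symm y, ⟨y, hy, rfl⟩, by simp⟩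
          rw [h5] at h4
          exact h4
        apply hT2 h3
        rw [Finset.mem_coe, Finset.mem_sdiff]
        refine ⟨(hmem _).2 (by simpa using hx), fun h6 => hxT ?_⟩
        exact Finset.mem_image.2 ⟨e x, h6, by simp⟩
      · refine ⟨if b then 1 else 0, ?_⟩
        intro x hx hxT
        obtain ⟨z, hz, rfl⟩ := Finset.mem_image.1 hxT
        have h6 := hb z hz
        rw [hf] at h6
        simp only [dif_pos hx] at h6
        cases b with
        | true => simpa using h6
        | false =>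
          have h7 : ¬ χ ⟨e.symm z, hx⟩ = 1 := by simpa using h6
          have h8 : ∀ k : Fin 2, k ≠ 1 → k = 0 := by decide
          simpa using h8 _ h7
    · intro T _ T' _ hTT
      exact Finset.image_injective e.symm.injective hTT
  exact_mod_cast h2

end Pool.Agent.Results.MP_9ff0e7_co.Quadratic
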